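import Pool.Agent.H30.GMC.StT

/-!
# GMC, module RPUL: pull-back of fractions
-/

open AlgebraicGeometry CategoryTheory FCB MvPolynomial

namespace GMC.RPUL

/-- the element `A / B` of the local ring of projective space -/
noncomputable def fr {n : ℕ} (x : PS n) (d : ℕ) (A B : MvPolynomial (Fin (n + 1)) ℂ)
    (hA : A ∈ grd n d) (hB : B ∈ grd n d) (hn : B ∉ PI x) : (PS n).presheaf.stalk x :=
  (Proj.stalkIso (grd n) x).inv.hom (HomogeneousLocalization.mk ⟨d, ⟨A, hA⟩, ⟨B, hB⟩, hn⟩)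

theorem spec_fr {n : ℕ} (x y : PS n) (h : x ⤳ y) (d : ℕ) (A B : MvPolynomial (Fin (n + 1)) ℂ)
    (hA : A ∈ grd n d) (hB : B ∈ grd n d) (hx : B ∉ PI x) (hy : B ∉ PI y) :
    ((PS n).presheaf.stalkSpecializes h).hom (fr y d A B hA hB hy) = fr x d A B hA hB hx := by
  let c : HomogeneousLocalization.NumDenSameDeg (grd n)
      (show ProjectiveSpectrum (grd n) from x).asHomogeneousIdeal.toIdeal.primeCompl :=
    ⟨d, ⟨A, hA⟩, ⟨B, hB⟩, hx⟩
  let c' : HomogeneousLocalization.NumDenSameDeg (grd n)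
      (show ProjectiveSpectrum (grd n) from y).asHomogeneousIdeal.toIdeal.primeCompl :=
    ⟨d, ⟨A, hA⟩, ⟨B, hB⟩, hy⟩
  have hU : x ∈ (ProjectiveSpectrum.basicOpen (grd n) B : (PS n).Opens) := hx
  have hy' : y ∈ (ProjectiveSpectrum.basicOpen (grd n) B : (PS n).Opens) := hy
  have h1 := TopCat.Presheaf.germ_stalkSpecializes (PS n).presheaf
    (U := ProjectiveSpectrum.basicOpen (grd n) B) hy' h
  exact DFunLike.congr_fun (CommRingCat.hom_ext_iff.mp h1) (sectionInBasicOpen (grd n) y c')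

end GMC.RPUL

namespace GMC

open GMC.RPUL

theorem rpul_thm : S_RPUL := by
  intro T T' _ _ _ _ k n h A B f hf hB
  obtain ⟨d, hA, hBd, hn, rfl⟩ := hf
  have hsp : genericPoint T ⤳ k (genericPoint T') :=
    genericPoint_specializes _
  refine ⟨(k.stalkMap (genericPoint T')).hom ((h.stalkMap (k (genericPoint T'))).hom
    (fr (h (k (genericPoint T'))) d A B hA hBd hB)), ⟨d, hA, hBd, hB, ?_⟩,
    (h.stalkMap (k (genericPoint T'))).hom (fr (h (k (genericPoint T'))) d A B hA hBd hB),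
    ?_, rfl⟩
  · rw [Scheme.Hom.stalkMap_comp]
    rfl
  · have h1 := Scheme.Hom.stalkSpecializes_stalkMap_apply h (genericPoint T)
      (k (genericPoint T')) hsp (fr (h (k (genericPoint T'))) d A B hA hBd hB)
    rw [spec_fr (h (genericPoint T)) (h (k (genericPoint T'))) (h.base.hom.map_specializes hsp)
      d A B hA hBd hn hB] at h1
    exact h1.symm

end GMC
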