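import Pool.Agent.H30.GMC.StT

/-!
# GMC, module XPOL: change of the chart for polynomials
-/

open AlgebraicGeometry CategoryTheory FCB MvPolynomial

namespace GMC.XPOL

/-- the weight of a monomial -/
def w (α : Fin 3 →₀ ℕ) : ℕ := α 0 + α 1 + 2 * α 2

/-- the new exponents -/
noncomputable def Φ (d : ℕ) (α : Fin 3 →₀ ℕ) : Fin 3 →₀ ℕ :=
  Finsupp.equivFunOnFinite.symm ![d - w α, α 1, α 2]

theorem Φ_apply (d : ℕ) (α : Fin 3 →₀ ℕ) :
    Φ d α 0 = d - w α ∧ Φ d α 1 = α 1 ∧ Φ d α 2 = α 2 := by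
  refine ⟨?_, ?_, ?_⟩ <;> rfl

theorem aeval_mon {K : Type} [Field K] [Algebra ℂ K] (b : Fin 3 → K) (m : Fin 3 →₀ ℕ) (c : ℂ) :
    aeval b (monomial m c) = algebraMap ℂ K c * (b 0 ^ m 0 * b 1 ^ m 1 * b 2 ^ m 2) := by
  rw [aeval_monomial, Finsupp.prod_fintype _ _ (by simp), Fin.prod_univ_three]

theorem key {K : Type} [Field K] (x y z : K) (hx : x ≠ 0) (p q r d : ℕ)
    (h : p + q + 2 * r ≤ d) :
    x ^ p * y ^ q * z ^ r * x⁻¹ ^ d =
      x⁻¹ ^ (d - (p + q + 2 * r)) * (y * x⁻¹) ^ q * (z * x⁻¹ ^ 2) ^ r := by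
  obtain ⟨e, rfl⟩ := Nat.exists_eq_add_of_le h
  rw [Nat.add_sub_cancel_left, pow_add, pow_add, pow_add, mul_pow, mul_pow, ← pow_mul]
  have h1 : x ^ p * x⁻¹ ^ p = 1 := by rw [← mul_pow, mul_inv_cancel₀ hx, one_pow]
  calc x ^ p * y ^ q * z ^ r * (x⁻¹ ^ p * x⁻¹ ^ q * x⁻¹ ^ (2 * r) * x⁻¹ ^ e)
      = (x ^ p * x⁻¹ ^ p) * (x⁻¹ ^ e * (y ^ q * x⁻¹ ^ q) * (z ^ r * x⁻¹ ^ (2 * r))) := by ring
    _ = _ := by rw [h1, one_mul]

end GMC.XPOL

namespace GMC

open GMC.XPOL

theorem xpol_thm : S_XPOL := by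
  classical
  intro F hF
  have hne : F.support.Nonempty := by
    rw [Finset.nonempty_iff_ne_empty]
    intro h
    exact hF (MvPolynomial.support_eq_empty.1 h)
  obtain ⟨α, hα, hmax⟩ := Finset.exists_max_image F.support w hne
  refine ⟨w α, ∑ β ∈ F.support, monomial (Φ (w α) β) (F.coeff β), ?_, ?_⟩
  · intro hmem
    rw [Ideal.mem_span_singleton] at hmem
    obtain ⟨H, hH⟩ := hmem
    have h1 := congrArg (fun q => MvPolynomial.coeff (Φ (w α) α) q) hH
    rw [MvPolynomial.coeff_X_mul'] at h1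
    have h2 : (0 : Fin 3) ∉ (Φ (w α) α).support := by
      rw [Finsupp.notMem_support_iff, (Φ_apply _ _).1, Nat.sub_self]
    rw [if_neg h2, MvPolynomial.coeff_sum, Finset.sum_eq_single α] at h1
    · rw [MvPolynomial.coeff_monomial, if_pos rfl] at h1
      exact (MvPolynomial.mem_support_iff.1 hα) h1
    · intro β hβ hne
      rw [MvPolynomial.coeff_monomial, if_neg]
      intro heq
      apply hne
      have e0 := (Φ_apply (w α) β).1.symm.trans ((DFunLike.congr_fun heq 0).trans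
        (Φ_apply (w α) α).1)
      have e1 := (Φ_apply (w α) β).2.1.symm.trans ((DFunLike.congr_fun heq 1).trans
        (Φ_apply (w α) α).2.1)
      have e2 := (Φ_apply (w α) β).2.2.symm.trans ((DFunLike.congr_fun heq 2).trans
        (Φ_apply (w α) α).2.2)
      have h3 := hmax β hβ
      have h4 : w β = w α := by omega
      have h5 : β 0 = α 0 := by
        unfold w at h4
        omega
      ext i
      fin_cases i
      · exact h5
      · exact e1
      · exact e2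
    · intro h
      exact absurd hα h
  · intro K _ _ a ha
    conv_lhs => rw [F.as_sum]
    rw [map_sum, map_sum, Finset.sum_mul]
    refine Finset.sum_congr rfl fun β hβ => ?_
    rw [aeval_mon, aeval_mon, (Φ_apply _ _).1, (Φ_apply _ _).2.1, (Φ_apply _ _).2.2, mul_assoc,
      key (a 0) (a 1) (a 2) ha (β 0) (β 1) (β 2) (w α) (hmax β hβ)]
    rfl

end GMC
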