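import Pool.Agent.H30.GMC.StT

/-!
# GMC, module XREG: a rational function without poles outside `D` is a polynomial in `ξ`
-/

open AlgebraicGeometry CategoryTheory FCB MvPolynomial

namespace GMC

theorem xreg_thm (h1 : S_XIEX) (h2 : S_XPRI) (h3 : S_XPRE) (h4 : S_XORF) : S_XREG := by
  intro M ξ hξ D hD
  let _ : Algebra ℂ M.X.functionField := (ffHom M.str).toAlgebra
  intro f hf hpos
  obtain ⟨-, hinj, hgen⟩ := (h1 M).2 ξ hξ
  have hinj0 : ∀ F : MvPolynomial (Fin 3) ℂ, F ≠ 0 → aeval ξ F ≠ 0 := fun F hF h =>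
    hF (hinj 0 F h)
  obtain ⟨F, G, hG, hFG⟩ := hgen f
  obtain ⟨G', F', c, hrel, hcG, hcF⟩ :=
    UniqueFactorizationMonoid.exists_reduced_factors G hG F
  have hc0 : c ≠ 0 := by
    rintro rfl
    rw [zero_mul] at hcG
    exact hG hcG.symm
  have hG0 : G' ≠ 0 := by
    rintro rfl
    rw [mul_zero] at hcG
    exact hG hcG.symm
  have hFG' : f * aeval ξ G' = aeval ξ F' := by
    apply mul_left_cancel₀ (hinj0 c hc0)
    change f * aeval ξ G = aeval ξ F at hFG
    rw [← hcG, ← hcF, map_mul, map_mul] at hFG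
    rw [← hFG]
    ring
  have hF0 : F' ≠ 0 := by
    rintro rfl
    rw [map_zero] at hFG'
    exact (mul_ne_zero hf (hinj0 G' hG0)) hFG'
  by_cases hu : IsUnit G'
  · obtain ⟨u, hu⟩ := hu
    refine ⟨F' * (↑u⁻¹ : MvPolynomial (Fin 3) ℂ), ?_⟩
    rw [map_mul, ← hFG', mul_assoc, ← map_mul, ← hu, Units.mul_inv, map_one, mul_one]
  · exfalso
    obtain ⟨π, hπ, hπG⟩ := WfDvdMonoid.exists_irreducible_factor hu hG0
    have hπ0 : π ≠ 0 := hπ.ne_zero
    have hprime : (Ideal.span {π} : Ideal (MvPolynomial (Fin 3) ℂ)).IsPrime :=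
      (Ideal.span_singleton_prime hπ0).2 hπ.prime
    obtain ⟨x, hx, hpr⟩ := h3 M ξ hξ 0 _ hprime
    obtain ⟨p, -, hpp, hht⟩ := h2 M ξ hξ 0 x hx
    have hpe : p = Ideal.span {π} := by
      ext A
      exact (hpp A).trans (hpr A).symm
    have hheight : (Ideal.span {π} : Ideal (MvPolynomial (Fin 3) ℂ)).height = 1 :=
      Ideal.height_span_singleton_eq_one_of_mem_nonZeroDivisors
        (mem_nonZeroDivisors_of_ne_zero hπ0) hπ.not_isUnit
    have hco : Order.coheight x = 1 := by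
      rw [← hht, hpe, hheight]
    have hne : (⟨x, hco⟩ : PrimeDiv M.X) ≠ D := by
      intro h
      apply hx
      have h5 := hD.1
      rw [← h] at h5
      exact h5
    have hordπ : Scheme.ord (aeval ξ π) x = 1 := (h4 M ξ hξ 0 ⟨x, hco⟩ π hx).1 hpr
    have hordn : ∀ A : MvPolynomial (Fin 3) ℂ, ¬ π ∣ A → Scheme.ord (aeval ξ A) x = 0 := by
      intro A hA
      refine (h4 M ξ hξ 0 ⟨x, hco⟩ A hx).2 _ hpr ?_
      rwa [Ideal.mem_span_singleton]
    have hF1 : ¬ π ∣ F' := fun h => hπ.not_isUnit (hrel hπG h)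
    obtain ⟨m, G'', hG'', hGe⟩ := WfDvdMonoid.max_power_factor hG0 hπ
    have hm : m ≠ 0 := by
      rintro rfl
      rw [pow_zero, one_mul] at hGe
      exact hG'' (hGe ▸ hπG)
    have hpow : ∀ e : ℕ, Scheme.ord (aeval ξ π ^ e) x = e := by
      have h8 : Scheme.ord (1 * 1 : M.X.functionField) x =
          Scheme.ord (1 : M.X.functionField) x + Scheme.ord (1 : M.X.functionField) x :=
          Scheme.ord_mul one_ne_zero one_ne_zero
      rw [mul_one] at h8
      intro e
      induction e with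
      | zero => rw [pow_zero]; push_cast; omega
      | succ e ih =>
        rw [pow_succ, Scheme.ord_mul (pow_ne_zero _ (hinj0 π hπ0)) (hinj0 π hπ0), ih, hordπ]
        push_cast
        ring
    have hG''0 : G'' ≠ 0 := by
      rintro rfl
      exact hG'' (dvd_zero _)
    have hordG : Scheme.ord (aeval ξ G') x = m := by
      rw [hGe, map_mul, map_pow, Scheme.ord_mul (pow_ne_zero _ (hinj0 π hπ0)) (hinj0 G'' hG''0),
        hpow, hordn G'' hG'', add_zero]
    have h6 : Scheme.ord (f * aeval ξ G') x = Scheme.ord f x + Scheme.ord (aeval ξ G') x :=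
      Scheme.ord_mul hf (hinj0 G' hG0)
    rw [hFG', hordn F' hF1, hordG] at h6
    have h7 := hpos ⟨x, hco⟩ hne
    change 0 ≤ Scheme.ord f x at h7
    omega

end GMC
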