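import Pool.Agent.H30.GMC.StT

/-!
# GMC, modules XUQI, XUQR, XPDH, XPOS
-/

open AlgebraicGeometry CategoryTheory FCB MvPolynomial

namespace GMC.XUQI

theorem rho_Q (a : Pool.Agent.H22.GMC.Coord 2) : rho (Q a) = mon a := by
  unfold rho Q
  rw [aeval_X, Equiv.apply_symm_apply]

theorem Q_mem (a : Pool.Agent.H22.GMC.Coord 2) : Q a ∈ grd 9 1 := isHomogeneous_X ℂ _

theorem Qc_mem (q : Fin 4) : Qc q ∈ grd 9 1 := by
  fin_cases q <;> exact Q_mem _

theorem mem_IX (p : MvPolynomial (Fin 10) ℂ) : p ∈ IX ↔ rho p = 0 := RingHom.mem_ker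

theorem rho_Qc_ne (q : Fin 4) : rho (Qc q) ≠ 0 := by
  fin_cases q
  · change rho (Q (some (0, 0))) ≠ 0
    rw [rho_Q]
    exact mul_ne_zero (X_ne_zero _) (X_ne_zero _)
  · change rho (Q (some (1, 1))) ≠ 0
    rw [rho_Q]
    exact mul_ne_zero (X_ne_zero _) (X_ne_zero _)
  · change rho (Q (some (2, 2))) ≠ 0
    rw [rho_Q]
    exact mul_ne_zero (X_ne_zero _) (X_ne_zero _)
  · change rho (Q none) ≠ 0
    rw [rho_Q]
    exact X_ne_zero _

theorem Qc_notMem (q : Fin 4) : Qc q ∉ IX := by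
  rw [mem_IX]
  exact rho_Qc_ne q

end GMC.XUQI

namespace GMC

open GMC.XUQI

theorem xuqi_thm (h1 : S_RATA) (h2 : S_RATB) : S_XUQI := by
  intro M ξ hξ j q
  obtain ⟨hA1, hA2, hA3⟩ := h1 M.X 9 M.emb
  obtain ⟨hB1, hB2, -⟩ := h2 M.X 9 M.emb
  have hgen : PI (M.emb (genericPoint M.X)) = IX := M.gen
  have hnot : ∀ q, Qc q ∉ PI (M.emb (genericPoint M.X)) := by
    intro q
    rw [hgen]
    exact Qc_notMem q
  have h0 : ∀ j, IsRatio M.emb (Qc j) (Qc 0) (wq ξ j) := by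
    intro j
    fin_cases j
    · exact hB2 1 (Qc 0) (Qc_mem 0) (hnot 0)
    · obtain ⟨f, hf⟩ := hA1 1 (Qc 1) (Qc 0) (Qc_mem 1) (Qc_mem 0) (hnot 0)
      have hm := (hB1 _ _ _ _ _ _ hξ.r0 hξ.r0).1
      have he : f = ξ 0 * ξ 0 := (hA2 _ _ _ _ _ _ hf hm).2 (by
        rw [hgen, mem_IX]
        change rho (Q (some (1, 1)) * (Q (some (0, 0)) * Q (some (0, 0))) -
          Q (some (0, 1)) * Q (some (0, 1)) * Q (some (0, 0))) = 0
        simp only [map_sub, map_mul, rho_Q, mon]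
        ring)
      have hw : wq ξ 1 = ξ 0 ^ 2 := rfl
      change IsRatio M.emb (Qc 1) (Qc 0) (wq ξ 1)
      rw [hw, pow_two, ← he]
      exact hf
    · obtain ⟨f, hf⟩ := hA1 1 (Qc 2) (Qc 0) (Qc_mem 2) (Qc_mem 0) (hnot 0)
      have hm := (hB1 _ _ _ _ _ _ hξ.r1 hξ.r1).1
      have he : f = ξ 1 * ξ 1 := (hA2 _ _ _ _ _ _ hf hm).2 (by
        rw [hgen, mem_IX]
        change rho (Q (some (2, 2)) * (Q (some (0, 0)) * Q (some (0, 0))) -
          Q (some (0, 2)) * Q (some (0, 2)) * Q (some (0, 0))) = 0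
        simp only [map_sub, map_mul, rho_Q, mon]
        ring)
      have hw : wq ξ 2 = ξ 1 ^ 2 := rfl
      change IsRatio M.emb (Qc 2) (Qc 0) (wq ξ 2)
      rw [hw, pow_two, ← he]
      exact hf
    · exact hξ.r2
  obtain ⟨g, hg⟩ := hA1 1 (Qc j) (Qc q) (Qc_mem j) (Qc_mem q) (hnot q)
  have hprod := (hB1 _ _ _ _ _ _ hg (h0 q)).1
  have heq : g * wq ξ q = wq ξ j := (hA2 _ _ _ _ _ _ hprod (h0 j)).2 (by
    have : Qc j * Qc q * Qc 0 - Qc j * (Qc q * Qc 0) = 0 := by ring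
    rw [this]
    exact Ideal.zero_mem _)
  have hne : wq ξ q ≠ 0 := fun h => hnot q ((hA3 _ _ _ (h0 q)).1 h)
  have he : g = wq ξ j / wq ξ q := by rw [eq_div_iff hne, heq]
  rw [← he]
  exact hg

theorem xuqr_thm (h1 : S_RLOC) (h2 : S_XUQI) : S_XUQR := by
  intro M ξ hξ j q x hq
  exact h1 M.X 9 M.emb x (Qc j) (Qc q) _ (h2 M ξ hξ j q) hq

theorem xpdh_thm (h0 : S_PSB) (h1 : S_RLOC) (h2 : S_XDEH) : S_XPDH := by
  intro M ξ hξ i x p hq hp d A hA
  have hr := (h2 M ξ hξ i).1 d A hA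
  have hprime : (PI (M.emb x)).IsPrime := (h0 9).1 _
  have hB : Qc (ch i) ^ d ∉ PI (M.emb x) := fun h => hq (hprime.mem_of_pow_mem _ h)
  have h3 := (h1 M.X 9 M.emb x A _ _ hr hB).2
  have h4 := hp (dh i A)
  constructor
  · intro h
    exact h4.2 fun h5 => h3.1 h5 h
  · intro h
    by_contra h5
    exact h4.1 h (h3.2 h5)

theorem xpos_thm (h1 : S_XORF) (h2 : S_XODX) (h3 : S_XPOL) : S_XPOS := by
  intro M ξ hξ D hD
  letI : Algebra ℂ M.X.functionField := (ffHom M.str).toAlgebra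
  intro F hF
  obtain ⟨d, G, hG, hGa⟩ := h3 F hF
  obtain ⟨ho, -, -, hpr⟩ := h2 M ξ hξ D hD
  have hξ0 : ξ 0 ≠ 0 := by
    intro h
    rw [h, Scheme.ord_zero] at ho
    simp at ho
  have h4 := hGa M.X.functionField ξ hξ0
  have h5 : Scheme.ord (aeval (xi ξ 1) G) D.1 = 0 :=
    (h1 M ξ hξ 1 D G hD.2.1).2 _ hpr hG
  by_cases h0 : aeval ξ F = 0
  · rw [h0, Scheme.ord_zero]
    exact le_rfl
  · have hinv : ∀ e : ℕ, Scheme.ord ((ξ 0)⁻¹ ^ e) D.1 = e := by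
      have h6 : Scheme.ord (ξ 0)⁻¹ D.1 = 1 := by
        have h7 : Scheme.ord (ξ 0 * (ξ 0)⁻¹) D.1 = Scheme.ord (ξ 0) D.1 + Scheme.ord (ξ 0)⁻¹ D.1 :=
          Scheme.ord_mul hξ0 (inv_ne_zero hξ0)
        have h8 : Scheme.ord (1 * 1 : M.X.functionField) D.1 =
          Scheme.ord (1 : M.X.functionField) D.1 + Scheme.ord (1 : M.X.functionField) D.1 :=
          Scheme.ord_mul one_ne_zero one_ne_zero
        rw [mul_one] at h8
        rw [mul_inv_cancel₀ hξ0] at h7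
        omega
      have h8 : Scheme.ord (1 * 1 : M.X.functionField) D.1 =
          Scheme.ord (1 : M.X.functionField) D.1 + Scheme.ord (1 : M.X.functionField) D.1 :=
          Scheme.ord_mul one_ne_zero one_ne_zero
      rw [mul_one] at h8
      intro e
      induction e with
      | zero => rw [pow_zero]; push_cast; omega
      | succ e ih =>
        rw [pow_succ, Scheme.ord_mul (pow_ne_zero _ (inv_ne_zero hξ0)) (inv_ne_zero hξ0), ih, h6]
        push_cast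
        ring
    have h9 : Scheme.ord (aeval ξ F * (ξ 0)⁻¹ ^ d) D.1 =
        Scheme.ord (aeval ξ F) D.1 + Scheme.ord ((ξ 0)⁻¹ ^ d) D.1 :=
      Scheme.ord_mul h0 (pow_ne_zero _ (inv_ne_zero hξ0))
    rw [h4, h5, hinv] at h9
    have h10 : Scheme.ord (aeval ξ F) D.1 = -(d : ℤ) := by linarith
    change Scheme.ord (aeval ξ F) D.1 ≤ 0
    rw [h10]
    omega

end GMC
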